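import Pool.Agent.Y89.KS.Defs5

/-!
# Tensor systems and conversion of systems (S_tens, S_gts)
-/

open Matrix Finset

namespace Pool.Agent.Y705.KS

set_option linter.unusedSectionVars false

open Pool.Agent.Y89.KS

/-- the splitting of the last two of `k + 2` variables -/
def spl (k : ℕ) : Fin (k + 2) ≃ Fin k ⊕ Bool :=
  finSumFinEquiv.symm.trans (Equiv.sumCongr (Equiv.refl _) finTwoEquiv)

theorem elim_spl {ι : Type} {k : ℕ} (J : Fin k → ι) (p q : ι) :
    (fun s => Sum.elim J (fun b => cond b q p) (spl k s)) = Fin.append J ![p, q] := by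
  funext s
  refine Fin.addCases (fun i => ?_) (fun i => ?_) s
  · simp [spl]
  · fin_cases i
    · simp [spl, finTwoEquiv]
    · simp [spl, finTwoEquiv]

theorem gts : S_gts := by
  intro F _ ι _ R M hM
  refine ⟨hM.unit _ _, ?_, ?_, ?_⟩
  · intro k l f g hf hg
    have h := hM.reidx _ _ finSumFinEquiv _ (hM.mul (Fin k) (Fin l) f g hf hg)
    exact h
  · intro k σ f hf
    exact hM.reidx _ _ σ f hf
  · intro k f hf
    have h := hM.con (Fin k) _ (hM.reidx _ _ (spl k) f hf)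
    convert h using 6 with J p _ q _
    rw [elim_spl]

section
variable {F : Type} [Field F] {ι : Type} [Fintype ι] {U : Type} [Fintype U]

/-- the transformed form -/
def tf (K : U → ι → ι → F) {k : ℕ} (f : (Fin k → U) → F) (L : Fin k × Bool → ι) : F :=
  ∑ J : Fin k → U, f J * ∏ s, K (J s) (L (s, false)) (L (s, true))

theorem mem_tens {M : ∀ S : Type, Submodule F ((S → ι) → F)} {K : U → ι → ι → F} {k : ℕ}
    {f : (Fin k → U) → F} : f ∈ tens M K k ↔ tf K f ∈ M (Fin k × Bool) := Iff.rfl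

/-- sums over the functions on `Fin (k + l)` -/
theorem sum_append {k l : ℕ} (φ : (Fin (k + l) → U) → F) :
    ∑ J : Fin (k + l) → U, φ J = ∑ J : Fin k → U, ∑ J' : Fin l → U, φ (Fin.append J J') := by
  rw [← Fintype.sum_prod_type' (f := fun (J : Fin k → U) (J' : Fin l → U) => φ (Fin.append J J'))]
  exact (Equiv.sum_comp (Fin.appendEquiv k l) φ).symm

theorem tf_mul (K : U → ι → ι → F) {k l : ℕ} (f : (Fin k → U) → F) (g : (Fin l → U) → F)
    (L : Fin (k + l) × Bool → ι) :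
    tf K (fun J : Fin (k + l) → U =>
      f (fun i => J (Fin.castAdd l i)) * g (fun i => J (Fin.natAdd k i))) L =
    tf K f (fun s => L (Fin.castAdd l s.1, s.2)) * tf K g (fun s => L (Fin.natAdd k s.1, s.2)) := by
  unfold tf
  rw [sum_append, Finset.sum_mul_sum]
  refine Finset.sum_congr rfl fun J _ => Finset.sum_congr rfl fun J' _ => ?_
  rw [Fin.prod_univ_add]
  simp only [Fin.append_left, Fin.append_right]
  ring

theorem tf_perm (K : U → ι → ι → F) {k : ℕ} (σ : Equiv.Perm (Fin k)) (f : (Fin k → U) → F)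
    (L : Fin k × Bool → ι) :
    tf K (fun J => f (fun i => J (σ i))) L = tf K f (fun s => L (σ s.1, s.2)) := by
  unfold tf
  refine Fintype.sum_equiv (σ.symm.arrowCongr (Equiv.refl U)) _ _ fun J => ?_
  have h1 : (σ.symm.arrowCongr (Equiv.refl U)) J = fun i => J (σ i) := by
    funext i; rfl
  rw [h1]
  congr 1
  exact (Equiv.prod_comp σ fun s => K (J s) (L (s, false)) (L (s, true))).symm

/-- the variables of the transformed form with the last four split off -/
def spl2 (k : ℕ) : Fin (k + 2) × Bool ≃ (Fin k × Bool ⊕ Bool) ⊕ Bool :=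
  ((spl k).prodCongr (Equiv.refl Bool)).trans <|
    (Equiv.sumProdDistrib _ _ _).trans <|
      ((Equiv.sumCongr (Equiv.refl _)
        ((Equiv.prodComm Bool Bool).trans (Equiv.boolProdEquivSum Bool))).trans
        (Equiv.sumAssoc _ _ _).symm)

theorem spl2_castAdd {k : ℕ} (i : Fin k) (b : Bool) :
    spl2 k (Fin.castAdd 2 i, b) = Sum.inl (Sum.inl (i, b)) := by
  simp [spl2, spl]

theorem spl2_zero_false {k : ℕ} : spl2 k (Fin.natAdd k 0, false) = Sum.inl (Sum.inr false) := by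
  simp [spl2, spl, finTwoEquiv, Equiv.boolProdEquivSum]

theorem spl2_one_false {k : ℕ} : spl2 k (Fin.natAdd k 1, false) = Sum.inl (Sum.inr true) := by
  simp [spl2, spl, finTwoEquiv, Equiv.boolProdEquivSum]

theorem spl2_zero_true {k : ℕ} : spl2 k (Fin.natAdd k 0, true) = Sum.inr false := by
  simp [spl2, spl, finTwoEquiv, Equiv.boolProdEquivSum]

theorem spl2_one_true {k : ℕ} : spl2 k (Fin.natAdd k 1, true) = Sum.inr true := by
  simp [spl2, spl, finTwoEquiv, Equiv.boolProdEquivSum]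

theorem sum_two (φ : (Fin 2 → U) → F) : ∑ J, φ J = ∑ u, ∑ u', φ ![u, u'] := by
  rw [← Fintype.sum_prod_type' (f := fun u u' => φ ![u, u'])]
  exact ((finTwoArrowEquiv U).symm.sum_comp φ).symm

/-- the crossed version of `spl2` -/
def spl3 (k : ℕ) : Fin (k + 2) × Bool ≃ (Fin k × Bool ⊕ Bool) ⊕ Bool :=
  (spl2 k).trans (Equiv.swap (Sum.inl (Sum.inr true)) (Sum.inr true))

theorem spl3_castAdd {k : ℕ} (i : Fin k) (b : Bool) :
    spl3 k (Fin.castAdd 2 i, b) = Sum.inl (Sum.inl (i, b)) := by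
  rw [spl3, Equiv.trans_apply, spl2_castAdd, Equiv.swap_apply_of_ne_of_ne] <;> simp

theorem spl3_zero_false {k : ℕ} : spl3 k (Fin.natAdd k 0, false) = Sum.inl (Sum.inr false) := by
  rw [spl3, Equiv.trans_apply, spl2_zero_false, Equiv.swap_apply_of_ne_of_ne] <;> simp

theorem spl3_one_false {k : ℕ} : spl3 k (Fin.natAdd k 1, false) = Sum.inr true := by
  rw [spl3, Equiv.trans_apply, spl2_one_false, Equiv.swap_apply_left]

theorem spl3_zero_true {k : ℕ} : spl3 k (Fin.natAdd k 0, true) = Sum.inr false := by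
  rw [spl3, Equiv.trans_apply, spl2_zero_true, Equiv.swap_apply_of_ne_of_ne] <;> simp

theorem spl3_one_true {k : ℕ} : spl3 k (Fin.natAdd k 1, true) = Sum.inl (Sum.inr true) := by
  rw [spl3, Equiv.trans_apply, spl2_one_true, Equiv.swap_apply_right]

theorem tf_val (K : U → ι → ι → F) {k : ℕ} (f : (Fin (k + 2) → U) → F) (J : Fin k × Bool → ι)
    (G : Fin (k + 2) × Bool → ι) (h : ∀ i b, G (Fin.castAdd 2 i, b) = J (i, b)) :
    tf K f G = ∑ J' : Fin k → U, ∑ u, ∑ u', f (Fin.append J' ![u, u']) *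
      (∏ s, K (J' s) (J (s, false)) (J (s, true))) *
      (K u (G (Fin.natAdd k 0, false)) (G (Fin.natAdd k 0, true)) *
        K u' (G (Fin.natAdd k 1, false)) (G (Fin.natAdd k 1, true))) := by
  unfold tf
  rw [sum_append]
  refine Finset.sum_congr rfl fun J' _ => ?_
  rw [sum_two]
  refine Finset.sum_congr rfl fun u _ => Finset.sum_congr rfl fun u' _ => ?_
  rw [Fin.prod_univ_add, Fin.prod_univ_two]
  simp only [Fin.append_left, Fin.append_right, h, Matrix.cons_val_zero, Matrix.cons_val_one,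
    mul_assoc]

theorem tf_spl (K : U → ι → ι → F) {k : ℕ} (f : (Fin (k + 2) → U) → F) (J : Fin k × Bool → ι)
    (p' q' p q : ι) :
    tf K f (fun s => Sum.elim (Sum.elim J fun b => cond b q' p') (fun b => cond b q p)
      (spl2 k s)) =
    ∑ J' : Fin k → U, ∑ u, ∑ u', f (Fin.append J' ![u, u']) *
      (∏ s, K (J' s) (J (s, false)) (J (s, true))) * (K u p' p * K u' q' q) := by
  rw [tf_val K f J _ fun i b => by simp only [spl2_castAdd, Sum.elim_inl]]
  simp only [spl2_zero_false, spl2_one_false,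
    spl2_zero_true, spl2_one_true, Sum.elim_inl, Sum.elim_inr, cond_true, cond_false]

theorem tf_splx (K : U → ι → ι → F) {k : ℕ} (f : (Fin (k + 2) → U) → F) (J : Fin k × Bool → ι)
    (p' q' p q : ι) :
    tf K f (fun s => Sum.elim (Sum.elim J fun b => cond b q' p') (fun b => cond b q p)
      (spl3 k s)) =
    ∑ J' : Fin k → U, ∑ u, ∑ u', f (Fin.append J' ![u, u']) *
      (∏ s, K (J' s) (J (s, false)) (J (s, true))) * (K u p' p * K u' q q') := by
  rw [tf_val K f J _ fun i b => by simp only [spl3_castAdd, Sum.elim_inl]]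
  simp only [spl3_zero_false, spl3_one_false,
    spl3_zero_true, spl3_one_true, Sum.elim_inl, Sum.elim_inr, cond_true, cond_false]

theorem swp4 {β : Type} [Fintype β] (Z : ι → ι → ι → ι → β → F) :
    ∑ a, ∑ b, ∑ c, ∑ d, ∑ j, Z a b c d j = ∑ j, ∑ a, ∑ b, ∑ c, ∑ d, Z a b c d j := by
  have h3 : ∀ a b c, ∑ d, ∑ j, Z a b c d j = ∑ j, ∑ d, Z a b c d j := fun _ _ _ =>
    Finset.sum_comm
  have h2 : ∀ a b, ∑ c, ∑ j, ∑ d, Z a b c d j = ∑ j, ∑ c, ∑ d, Z a b c d j := fun _ _ =>
    Finset.sum_comm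
  have h1 : ∀ a, ∑ b, ∑ j, ∑ c, ∑ d, Z a b c d j = ∑ j, ∑ b, ∑ c, ∑ d, Z a b c d j := fun _ =>
    Finset.sum_comm
  simp only [h3, h2, h1]
  exact Finset.sum_comm

theorem reord (Z : ι → ι → ι → ι → F) :
    ∑ a, ∑ b', ∑ b, ∑ a', Z a a' b b' = ∑ a, ∑ a', ∑ b, ∑ b', Z a a' b b' := by
  refine Finset.sum_congr rfl fun a _ => ?_
  calc ∑ b', ∑ b, ∑ a', Z a a' b b' = ∑ b, ∑ b', ∑ a', Z a a' b b' := Finset.sum_comm
    _ = ∑ b, ∑ a', ∑ b', Z a a' b b' := Finset.sum_congr rfl fun b _ => Finset.sum_comm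
    _ = ∑ a', ∑ b, ∑ b', Z a a' b b' := Finset.sum_comm

theorem pull {T : Type} [Fintype T] (c : T → F) (S : T → U → U → F) (g : U → U → F) :
    ∑ p, ∑ q, (∑ t, c t * S t p q) * g p q = ∑ t, c t * ∑ p, ∑ q, S t p q * g p q := by
  simp only [Finset.sum_mul, Finset.mul_sum]
  calc ∑ p, ∑ q, ∑ t, c t * S t p q * g p q = ∑ p, ∑ t, ∑ q, c t * S t p q * g p q :=
        Finset.sum_congr rfl fun p _ => Finset.sum_comm
    _ = ∑ t, ∑ p, ∑ q, c t * S t p q * g p q := Finset.sum_comm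
    _ = ∑ t, ∑ p, ∑ q, c t * (S t p q * g p q) := by simp only [mul_assoc]

/-- the general computation -/
theorem con_gen {K : U → ι → ι → F} (W : ι → ι → ι → ι → F) {k : ℕ}
    (f : (Fin (k + 2) → U) → F) (J : Fin k × Bool → ι) :
    ∑ a, ∑ a', ∑ b, ∑ b', W a a' b b' * ∑ J' : Fin k → U, ∑ u, ∑ u',
      f (Fin.append J' ![u, u']) * (∏ s, K (J' s) (J (s, false)) (J (s, true))) *
      (K u a b * K u' a' b') =
    tf K (fun J' : Fin k → U => ∑ u, ∑ u',
      (∑ a, ∑ a', ∑ b, ∑ b', K u a b * K u' a' b' * W a a' b b') *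
      f (Fin.append J' ![u, u'])) J := by
  simp only [Finset.mul_sum]
  rw [swp4]
  unfold tf
  refine Finset.sum_congr rfl fun J' _ => ?_
  rw [swp4, Finset.sum_mul]
  refine Finset.sum_congr rfl fun u _ => ?_
  rw [swp4, Finset.sum_mul]
  refine Finset.sum_congr rfl fun u' _ => ?_
  simp only [Finset.sum_mul]
  refine Finset.sum_congr rfl fun a _ => Finset.sum_congr rfl fun a' _ =>
    Finset.sum_congr rfl fun b _ => Finset.sum_congr rfl fun b' _ => ?_
  ring

theorem con_str {R₁ R₂ : Matrix ι ι F} {K : U → ι → ι → F}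
    {k : ℕ} (f : (Fin (k + 2) → U) → F) (J : Fin k × Bool → ι) :
    ∑ p', ∑ q', R₁ p' q' * ∑ p, ∑ q, R₂ p q * tf K f (fun s =>
      Sum.elim (Sum.elim J fun b => cond b q' p') (fun b => cond b q p) (spl2 k s)) =
    tf K (fun J' : Fin k → U => ∑ u, ∑ u', (∑ a, ∑ a', ∑ b, ∑ b', K u a b * K u' a' b' *
      (R₁ a a' * R₂ b b')) * f (Fin.append J' ![u, u'])) J := by
  rw [← con_gen]
  refine Finset.sum_congr rfl fun a _ => Finset.sum_congr rfl fun a' _ => ?_
  rw [Finset.mul_sum]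
  refine Finset.sum_congr rfl fun b _ => ?_
  rw [Finset.mul_sum]
  refine Finset.sum_congr rfl fun b' _ => ?_
  rw [tf_spl, mul_assoc]

theorem con_crs {R₁ R₂ : Matrix ι ι F} {K : U → ι → ι → F}
    {k : ℕ} (f : (Fin (k + 2) → U) → F) (J : Fin k × Bool → ι) :
    ∑ p', ∑ q', R₁ p' q' * ∑ p, ∑ q, R₂ p q * tf K f (fun s =>
      Sum.elim (Sum.elim J fun b => cond b q' p') (fun b => cond b q p) (spl3 k s)) =
    tf K (fun J' : Fin k → U => ∑ u, ∑ u', (∑ a, ∑ a', ∑ b, ∑ b', K u a b * K u' a' b' *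
      (R₁ a b' * R₂ b a')) * f (Fin.append J' ![u, u'])) J := by
  rw [← con_gen, ← reord]
  refine Finset.sum_congr rfl fun a _ => Finset.sum_congr rfl fun b' _ => ?_
  rw [Finset.mul_sum]
  refine Finset.sum_congr rfl fun b _ => ?_
  rw [Finset.mul_sum]
  refine Finset.sum_congr rfl fun a' _ => ?_
  rw [tf_splx, mul_assoc]

/-- one term of the contraction -/
theorem con_mem {M : ∀ S : Type, Submodule F ((S → ι) → F)} {R₁ R₂ : Matrix ι ι F}
    (h₁ : GSys R₁ M) (h₂ : GSys R₂ M) {K : U → ι → ι → F} {k : ℕ}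
    {f : (Fin (k + 2) → U) → F} (hf : tf K f ∈ M (Fin (k + 2) × Bool)) (cr : Bool) :
    tf K (fun J' : Fin k → U => ∑ u, ∑ u', (∑ a, ∑ a', ∑ b, ∑ b', K u a b * K u' a' b' *
      cond cr (R₁ a b' * R₂ b a') (R₁ a a' * R₂ b b')) * f (Fin.append J' ![u, u'])) ∈
      M (Fin k × Bool) := by
  cases cr
  · have h := h₁.con _ _ (h₂.con _ _ (h₁.reidx _ _ (spl2 k) _ hf))
    convert h using 1
    funext J
    exact (con_str f J).symm
  · have h := h₁.con _ _ (h₂.con _ _ (h₁.reidx _ _ (spl3 k) _ hf))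
    convert h using 1
    funext J
    exact (con_crs f J).symm

end

theorem tens_sys : S_tens := by
  intro F _ ι _ M R₀ hM U _ R' K T _ Rl Rr cr c hl hr hR
  refine ⟨?_, ?_, ?_, ?_⟩
  · rw [mem_tens]
    exact hM.unit _ _
  · intro k l f g hf hg
    rw [mem_tens] at hf hg ⊢
    have h := hM.reidx _ _ ((Equiv.sumProdDistrib (Fin k) (Fin l) Bool).symm.trans
      (finSumFinEquiv.prodCongr (Equiv.refl Bool))) _ (hM.mul _ _ _ _ hf hg)
    convert h using 1
    funext L
    rw [tf_mul]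
    rfl
  · intro k σ f hf
    rw [mem_tens] at hf ⊢
    have h := hM.reidx _ _ (σ.prodCongr (Equiv.refl Bool)) _ hf
    convert h using 1
    funext L
    rw [tf_perm]
    rfl
  · intro k f hf
    have h : (fun J : Fin k → U => ∑ p, ∑ q, R' p q * f (Fin.append J ![p, q])) =
        ∑ t, c t • fun J : Fin k → U => ∑ u, ∑ u', (∑ a, ∑ a', ∑ b, ∑ b',
          K u a b * K u' a' b' * cond (cr t) (Rl t a b' * Rr t b a') (Rl t a a' * Rr t b b')) *
          f (Fin.append J ![u, u']) := by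
      funext J
      rw [Finset.sum_apply]
      simp only [hR, Pi.smul_apply, smul_eq_mul]
      exact pull c (fun t u u' => ∑ a, ∑ a', ∑ b, ∑ b',
          K u a b * K u' a' b' * cond (cr t) (Rl t a b' * Rr t b a') (Rl t a a' * Rr t b b'))
          fun u u' => f (Fin.append J ![u, u'])
    rw [h]
    refine Submodule.sum_mem _ fun t _ => Submodule.smul_mem _ _ ?_
    rw [mem_tens]
    exact con_mem (hl t) (hr t) hf (cr t)

end Pool.Agent.Y705.KS
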